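import Mathlib

/-!
Polynomial calculus on an abelian group `A` with values in rational vector spaces:
homogeneous polynomial maps are diagonals of multilinear maps over the integers.
-/

open Function

namespace Pool.Agent.Helper69.Gon

variable {A : Type*} [AddCommGroup A]

section Poly

variable {U : Type*} [AddCommGroup U] [Module ℚ U]

/-- A vector valued polynomial in an integer variable with no terms of degree `0`
and which vanishes identically has zero linear coefficient. -/
theorem lin_coeff_zero {ι : Type*} (S : Finset ι) (e : ι → ℕ) (a : ι → U) (u : U)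
    (he : ∀ s ∈ S, 2 ≤ e s)
    (h : ∀ t : ℤ, t • u + ∑ s ∈ S, t ^ (e s) • a s = 0) : u = 0 := by
  classical
  by_contra hu
  obtain ⟨φ, hφ⟩ : ∃ φ : U →ₗ[ℚ] ℚ, φ u ≠ 0 := by
    by_contra hcon
    push Not at hcon
    exact hu ((Module.forall_dual_apply_eq_zero_iff ℚ u).1 hcon)
  set p : Polynomial ℚ := Polynomial.C (φ u) * Polynomial.X +
    ∑ s ∈ S, Polynomial.C (φ (a s)) * Polynomial.X ^ (e s) with hp
  have hroot : ∀ t : ℤ, p.eval (t : ℚ) = 0 := by
    intro t
    have h1 := congrArg φ (h t)
    rw [map_add, map_sum, map_zero] at h1
    rw [hp, Polynomial.eval_add, Polynomial.eval_finsetSum]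
    simp only [Polynomial.eval_mul, Polynomial.eval_C, Polynomial.eval_X, Polynomial.eval_pow]
    rw [← h1]
    congr 1
    · rw [map_zsmul, zsmul_eq_mul, mul_comm]
    · refine Finset.sum_congr rfl fun s _ => ?_
      rw [map_zsmul, zsmul_eq_mul, mul_comm]
      push_cast
      rfl
  have hp0 : p = 0 := by
    apply Polynomial.eq_zero_of_infinite_isRoot
    refine Set.Infinite.mono (s := Set.range (fun t : ℤ => (t : ℚ))) ?_ ?_
    · rintro _ ⟨t, rfl⟩
      exact hroot t
    · exact Set.infinite_range_of_injective (fun a b hab => by exact_mod_cast hab)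
  have hc : p.coeff 1 = φ u := by
    rw [hp, Polynomial.coeff_add, Polynomial.finsetSum_coeff]
    rw [Finset.sum_eq_zero]
    · simp
    · intro s hs
      rw [Polynomial.coeff_C_mul, Polynomial.coeff_X_pow, if_neg, mul_zero]
      have := he s hs
      omega
  rw [hp0, Polynomial.coeff_zero] at hc
  exact hφ hc.symm

/-- If a multilinear map vanishes on the diagonal, so does its derivative. -/
theorem linearDeriv_diag {d : ℕ} (L : MultilinearMap ℤ (fun _ : Fin d => A) U)
    (h : ∀ v, L (fun _ => v) = 0) (v w : A) :
    ∑ i : Fin d, L (update (fun _ => v) i w) = 0 := by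
  classical
  have key := lin_coeff_zero (U := U) (Finset.univ.filter (fun s : Finset (Fin d) => 2 ≤ s.card))
    (fun s => s.card) (fun s => L (s.piecewise (fun _ => w) (fun _ => v)))
    (∑ i : Fin d, L (update (fun _ => v) i w)) (by
      intro s hs
      simpa using hs) (by
      intro t
      have h1 := L.map_add_eq_map_add_linearDeriv_add (fun _ => v) (fun _ => t • w)
      have h2 : ((fun _ => v) + (fun _ => t • w) : Fin d → A) = fun _ => v + t • w := rfl
      rw [h2, h, h, MultilinearMap.linearDeriv_apply, zero_add] at h1
      rw [h1]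
      congr 1
      · rw [Finset.smul_sum]
        refine Finset.sum_congr rfl fun i _ => ?_
        rw [MultilinearMap.map_update_smul]
      · refine Finset.sum_congr rfl fun s _ => ?_
        have h3 := L.map_piecewise_smul (fun _ => t) (fun i => if i ∈ s then w else v) s
        have e1 : s.piecewise (fun i : Fin d => (fun _ => t) i • (fun i => if i ∈ s then w else v) i)
            (fun i => if i ∈ s then w else v) = s.piecewise (fun _ => t • w) (fun _ => v) := by
          ext i
          by_cases hi : i ∈ s <;> simp [Finset.piecewise, hi]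
        have e2 : (fun i => if i ∈ s then w else v) = s.piecewise (fun _ => w) (fun _ => v) := by
          ext i
          by_cases hi : i ∈ s <;> simp [Finset.piecewise, hi]
        rw [e1] at h3
        rw [h3, e2]
        simp)
  exact key

end Poly

section Ops

variable {T T' : Type*} [AddCommGroup T] [AddCommGroup T']

/-- Short name for homogeneous polynomial data of degree `d`. -/
abbrev M (A : Type*) [AddCommGroup A] (d : ℕ) (T : Type*) [AddCommGroup T] :=
  MultilinearMap ℤ (fun _ : Fin d => A) T

/-- The contribution of the slot `i` to the derivative. -/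
def derAt {d : ℕ} (L : M A (d + 1) T) (i : Fin (d + 1)) : M A d (A →ₗ[ℤ] T) where
  toFun v :=
    { toFun := fun w => (L.curryMid i w) v
      map_add' := by
        intro x y
        rw [map_add]
        rfl
      map_smul' := by
        intro c x
        rw [map_smul]
        rfl }
  map_update_add' := by
    intro _ v j x y
    ext w
    have h := (L.curryMid i w).map_update_add v j x y
    simp only [LinearMap.coe_mk, AddHom.coe_mk, LinearMap.add_apply]
    convert h
  map_update_smul' := by
    intro _ v j c x
    ext w
    have h := (L.curryMid i w).map_update_smul v j c x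
    simp only [LinearMap.coe_mk, AddHom.coe_mk, LinearMap.smul_apply]
    convert h

/-- The derivative. -/
def der {d : ℕ} (L : M A (d + 1) T) : M A d (A →ₗ[ℤ] T) := ∑ i, derAt L i

theorem derAt_diag {d : ℕ} (L : M A (d + 1) T) (i : Fin (d + 1)) (v w : A) :
    derAt L i (fun _ => v) w = L (update (fun _ => v) i w) := by
  change L (i.insertNth w (fun _ => v)) = _
  congr 1
  exact Fin.insertNth_removeNth (α := fun _ => A) i w (fun _ => v)

theorem der_diag {d : ℕ} (L : M A (d + 1) T) (v w : A) :
    der L (fun _ => v) w = ∑ i, L (update (fun _ => v) i w) := by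
  rw [der, sum_apply, LinearMap.sum_apply]
  exact Finset.sum_congr rfl fun i _ => derAt_diag L i v w

/-- Euler's identity. -/
theorem der_euler {d : ℕ} (L : M A (d + 1) T) (v : A) :
    der L (fun _ => v) v = (d + 1) • L (fun _ => v) := by
  rw [der_diag]
  have : ∀ i : Fin (d + 1), L (update (fun _ => v) i v) = L (fun _ => v) := by
    intro i
    congr 1
    exact Function.update_eq_self i (fun _ => v)
  rw [Finset.sum_congr rfl fun i _ => this i]
  simp

/-- Evaluation of an operator valued polynomial at the variable itself. -/
def ev {d : ℕ} (L : M A d (A →ₗ[ℤ] T)) : M A (d + 1) T :=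
  LinearMap.uncurryLeft (M := fun _ : Fin (d + 1) => A)
    { toFun := fun w => (LinearMap.applyₗ w).compMultilinearMap L
      map_add' := by
        intro x y
        ext v
        simp
      map_smul' := by
        intro c x
        ext v
        simp }

theorem ev_apply {d : ℕ} (L : M A d (A →ₗ[ℤ] T)) (v : Fin (d + 1) → A) :
    ev L v = L (fun i => v i.succ) (v 0) := rfl

theorem ev_diag {d : ℕ} (L : M A d (A →ₗ[ℤ] T)) (v : A) :
    ev L (fun _ => v) = L (fun _ => v) v := rfl

end Ops

section Poly2

variable {U : Type*} [AddCommGroup U] [Module ℚ U]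

/-- Derivative of the identity `L(v,...,v)(v) = 0`. -/
theorem der_ev_zero {d : ℕ} (L : M A (d + 1) (A →ₗ[ℤ] U)) (h : ∀ v, L (fun _ => v) v = 0)
    (v w : A) : der L (fun _ => v) w v + L (fun _ => v) w = 0 := by
  have h1 := linearDeriv_diag (ev L) (fun v => by rw [ev_diag]; exact h v) v w
  rw [Fin.sum_univ_succ] at h1
  rw [der_diag, LinearMap.sum_apply, add_comm, ← h1]
  congr 1
  refine Finset.sum_congr rfl fun i _ => ?_
  rw [ev_apply]
  congr 1
  congr 1
  ext j
  simp [Function.update_apply, Fin.succ_inj]

/-- Derivative of the identity `L(v,...,v) = 0`. -/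
theorem der_zero {d : ℕ} (L : M A (d + 1) U) (h : ∀ v, L (fun _ => v) = 0)
    (v w : A) : der L (fun _ => v) w = 0 := by
  rw [der_diag]
  exact linearDeriv_diag L h v w

end Poly2

end Pool.Agent.Helper69.Gon
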