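import Pool.Agent.Helper69.Gon.Calc

/-!
Koszul exactness for polynomial differential forms on an abelian group.
-/

open Function

namespace Pool.Agent.Helper69.Gon

variable {A : Type*} [AddCommGroup A]

theorem der_comp {T T' : Type*} [AddCommGroup T] [AddCommGroup T'] {d : ℕ}
    (φ : T →ₗ[ℤ] T') (L : M A (d + 1) T) (v w : A) :
    der (φ.compMultilinearMap L) (fun _ => v) w = φ (der L (fun _ => v) w) := by
  rw [der_diag, der_diag, map_sum]
  rfl

/-- Evaluation of an alternating map on a tuple with a free slot. -/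
def slot {W : Type*} [AddCommGroup W] {m : ℕ} (z : Fin m → A) (i : Fin m) :
    (A [⋀^Fin m]→ₗ[ℤ] W) →ₗ[ℤ] (A →ₗ[ℤ] W) where
  toFun F :=
    { toFun := fun u => F (update z i u)
      map_add' := fun x y => F.map_update_add z i x y
      map_smul' := fun c x => F.map_update_smul z i c x }
  map_add' := by
    intro F G
    ext u
    rfl
  map_smul' := by
    intro c F
    ext u
    rfl

theorem slot_apply {W : Type*} [AddCommGroup W] {m : ℕ} (z : Fin m → A) (i : Fin m)
    (F : A [⋀^Fin m]→ₗ[ℤ] W) (u : A) : slot z i F u = F (update z i u) := rfl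

omit [AddCommGroup A] in
theorem removeNth_succ_cons {m : ℕ} (v : A) (y : Fin (m + 1) → A) (j : Fin (m + 1)) :
    Fin.removeNth j.succ (Fin.cons v y : Fin (m + 2) → A) = Fin.cons v (Fin.removeNth j y) := by
  ext k
  refine Fin.cases ?_ (fun k' => ?_) k
  · simp [Fin.removeNth_apply]
  · simp [Fin.removeNth_apply]

theorem alt_swap {W : Type*} [AddCommGroup W] {m : ℕ} (f : A [⋀^Fin m]→ₗ[ℤ] W)
    (v : A) (y : Fin m → A) (j : Fin m) :
    f (Fin.removeNth j.succ (Fin.cons v y : Fin (m + 1) → A)) =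
      (-1 : ℤ) ^ (j : ℕ) • f (update y j v) := by
  obtain ⟨m, rfl⟩ : ∃ m', m = m' + 1 := ⟨m - 1, by have := j.2; omega⟩
  rw [removeNth_succ_cons]
  have h := AlternatingMap.map_insertNth f j v (Fin.removeNth j y)
  have h2 : j.insertNth v (Fin.removeNth j y) = update y j v :=
    Fin.insertNth_removeNth (α := fun _ => A) j v y
  rw [h2] at h
  rw [h, smul_smul, ← pow_add, Even.neg_one_pow, one_smul]
  · rfl
  · exact ⟨j, rfl⟩

section Q

variable {W : Type*} [AddCommGroup W] [Module ℚ W]

/-- Vanishing of the contraction with the Euler field. -/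
def ContrZero {d m : ℕ} (L : M A d (A [⋀^Fin m]→ₗ[ℤ] W)) : Prop :=
  ∀ (v : A) (z : Fin m → A) (i : Fin m), z i = v → L (fun _ => v) z = 0

theorem ContrZero.der {d m : ℕ} {L : M A (d + 1) (A [⋀^Fin m]→ₗ[ℤ] W)} (h : ContrZero L)
    (v w : A) (z : Fin m → A) (i : Fin m) :
    der L (fun _ => v) w (update z i v) + L (fun _ => v) (update z i w) = 0 := by
  have h1 := der_ev_zero ((slot (W := W) z i).compMultilinearMap L) (by
    intro v
    exact h v (update z i v) i (by simp)) v w
  rw [der_comp, slot_apply] at h1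
  exact h1

/-- The Koszul primitive. -/
theorem koszul {d m : ℕ} (L : M A (d + 1) (A [⋀^Fin m]→ₗ[ℤ] W)) (h : ContrZero L) :
    ∃ L' : M A d (A [⋀^Fin (m + 1)]→ₗ[ℤ] W), ∀ (v : A) (y : Fin m → A),
      L' (fun _ => v) (Fin.cons v y) = L (fun _ => v) y := by
  let φ : (A →ₗ[ℤ] A [⋀^Fin m]→ₗ[ℤ] W) →ₗ[ℤ] A [⋀^Fin (m + 1)]→ₗ[ℤ] W :=
    AlternatingMap.alternatizeUncurryFinLM
  refine ⟨((1 : ℚ) / (d + 1 + m)) • (φ.compMultilinearMap (der L)), fun v y => ?_⟩
  have h1 : (φ.compMultilinearMap (der L)) (fun _ => v) (Fin.cons v y) =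
      ((d + 1 + m : ℕ) : ℚ) • L (fun _ => v) y := by
    change AlternatingMap.alternatizeUncurryFin (der L (fun _ => v)) (Fin.cons v y) = _
    rw [AlternatingMap.alternatizeUncurryFin_apply, Fin.sum_univ_succ]
    have e0 : der L (fun _ => v) ((Fin.cons v y : Fin (m + 1) → A) 0)
        (Fin.removeNth 0 (Fin.cons v y : Fin (m + 1) → A)) = ((d + 1 : ℕ) : ℚ) • L (fun _ => v) y := by
      have : (Fin.removeNth 0 (Fin.cons v y : Fin (m + 1) → A)) = y := by
        ext k
        simp [Fin.removeNth_apply]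
      rw [this, Fin.cons_zero, der_euler]
      rw [AlternatingMap.smul_apply, Nat.cast_smul_eq_nsmul]
    have e1 : ∀ j : Fin m, (-1 : ℤ) ^ ((j.succ : Fin (m + 1)) : ℕ) •
        der L (fun _ => v) ((Fin.cons v y : Fin (m + 1) → A) j.succ)
        (Fin.removeNth j.succ (Fin.cons v y : Fin (m + 1) → A)) = L (fun _ => v) y := by
      intro j
      rw [alt_swap, Fin.cons_succ, smul_smul, ← pow_add]
      have h2 := h.der v (y j) y j
      rw [Function.update_eq_self] at h2
      have h3 : der L (fun _ => v) (y j) (update y j v) = - L (fun _ => v) y := by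
        rw [eq_neg_iff_add_eq_zero]
        exact h2
      rw [h3, Fin.val_succ, Odd.neg_one_pow]
      · simp
      · exact ⟨j, by ring⟩
    rw [e0, Finset.sum_congr rfl fun j _ => e1 j]
    simp only [Fin.val_zero, pow_zero, one_smul, Finset.sum_const, Finset.card_univ,
      Fintype.card_fin]
    rw [← Nat.cast_smul_eq_nsmul ℚ, ← add_smul]
    push_cast
    ring_nf
  rw [smul_apply, AlternatingMap.smul_apply, h1, smul_smul]
  push_cast
  rw [one_div_mul_cancel (by positivity), one_smul]

/-- The alternating map attached to a linear family which vanishes when its parameter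
occurs among the arguments. -/
theorem altOf {m : ℕ} (G : A →ₗ[ℤ] A [⋀^Fin m]→ₗ[ℤ] W)
    (h : ∀ (v : A) (z : Fin m → A) (i : Fin m), z i = v → G v z = 0) (v : A) (y : Fin m → A) :
    (((1 : ℚ) / (m + 1)) • AlternatingMap.alternatizeUncurryFin G) (Fin.cons v y) = G v y := by
  have pol : ∀ (u w : A) (z : Fin m → A) (i : Fin m),
      G u (update z i w) + G w (update z i u) = 0 := by
    intro u w z i
    have h1 := h (u + w) (update z i (u + w)) i (by simp)
    rw [map_add, AlternatingMap.add_apply, AlternatingMap.map_update_add,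
      AlternatingMap.map_update_add, h u (update z i u) i (by simp),
      h w (update z i w) i (by simp)] at h1
    simpa using h1
  rw [AlternatingMap.smul_apply, AlternatingMap.alternatizeUncurryFin_apply, Fin.sum_univ_succ]
  have e0 : G ((Fin.cons v y : Fin (m + 1) → A) 0)
      (Fin.removeNth 0 (Fin.cons v y : Fin (m + 1) → A)) = G v y := by
    have : (Fin.removeNth 0 (Fin.cons v y : Fin (m + 1) → A)) = y := by
      ext k
      simp [Fin.removeNth_apply]
    rw [this, Fin.cons_zero]
  have e1 : ∀ j : Fin m, (-1 : ℤ) ^ ((j.succ : Fin (m + 1)) : ℕ) •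
      G ((Fin.cons v y : Fin (m + 1) → A) j.succ)
      (Fin.removeNth j.succ (Fin.cons v y : Fin (m + 1) → A)) = G v y := by
    intro j
    rw [alt_swap, Fin.cons_succ, smul_smul, ← pow_add]
    have h2 := pol (y j) v y j
    rw [Function.update_eq_self] at h2
    rw [eq_neg_of_add_eq_zero_left h2, Fin.val_succ, Odd.neg_one_pow]
    · simp
    · exact ⟨j, by ring⟩
  rw [e0, Finset.sum_congr rfl fun j _ => e1 j]
  simp only [Fin.val_zero, pow_zero, one_smul, Finset.sum_const, Finset.card_univ,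
    Fintype.card_fin]
  rw [← Nat.cast_smul_eq_nsmul ℚ]
  nth_rewrite 1 [← one_smul ℚ (G v y)]
  rw [← add_smul, smul_smul, one_div, add_comm (1 : ℚ), inv_mul_cancel₀ (by positivity), one_smul]

end Q

section Flip

variable {U : Type*} [AddCommGroup U]

/-- Exchange the operator slot and the form slots. -/
def toForm (m : ℕ) : (A →ₗ[ℤ] A [⋀^Fin m]→ₗ[ℤ] U) →ₗ[ℤ] (A [⋀^Fin m]→ₗ[ℤ] (A →ₗ[ℤ] U)) where
  toFun G :=
    { toFun := fun y =>
        { toFun := fun w => G w y
          map_add' := by
            intro a b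
            rw [map_add]
            rfl
          map_smul' := by
            intro c a
            rw [map_smul]
            rfl }
      map_update_add' := by
        intro _ z i x y
        ext w
        simp only [LinearMap.coe_mk, AddHom.coe_mk, LinearMap.add_apply]
        exact (G w).map_update_add z i x y
      map_update_smul' := by
        intro _ z i c x
        ext w
        simp only [LinearMap.coe_mk, AddHom.coe_mk, LinearMap.smul_apply]
        exact (G w).map_update_smul z i c x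
      map_eq_zero_of_eq' := by
        intro z i j hz hij
        ext w
        exact (G w).map_eq_zero_of_eq z hz hij }
  map_add' := by
    intro F G
    ext y w
    rfl
  map_smul' := by
    intro c F
    ext y w
    rfl

theorem toForm_apply (m : ℕ) (G : A →ₗ[ℤ] A [⋀^Fin m]→ₗ[ℤ] U) (y : Fin m → A) (w : A) :
    toForm m G y w = G w y := rfl

/-- The inverse exchange. -/
def ofForm (m : ℕ) : (A [⋀^Fin m]→ₗ[ℤ] (A →ₗ[ℤ] U)) →ₗ[ℤ] (A →ₗ[ℤ] A [⋀^Fin m]→ₗ[ℤ] U) where
  toFun F :=
    { toFun := fun w => (LinearMap.applyₗ w).compAlternatingMap F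
      map_add' := by
        intro a b
        ext y
        simp
      map_smul' := by
        intro c a
        ext y
        simp }
  map_add' := by
    intro F G
    ext w y
    rfl
  map_smul' := by
    intro c F
    ext w y
    rfl

theorem ofForm_apply (m : ℕ) (F : A [⋀^Fin m]→ₗ[ℤ] (A →ₗ[ℤ] U)) (y : Fin m → A) (w : A) :
    ofForm m F w y = F y w := rfl

/-- Contraction of the form slots with a new leading parameter. -/
def contr (m : ℕ) : (A →ₗ[ℤ] A [⋀^Fin (m + 1)]→ₗ[ℤ] U) →ₗ[ℤ]
    (A →ₗ[ℤ] A →ₗ[ℤ] A [⋀^Fin m]→ₗ[ℤ] U) where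
  toFun F := (AlternatingMap.curryLeftLinearMap ∘ₗ F).flip
  map_add' := by
    intro F G
    ext v w y
    rfl
  map_smul' := by
    intro c F
    ext v w y
    rfl

theorem contr_apply (m : ℕ) (F : A →ₗ[ℤ] A [⋀^Fin (m + 1)]→ₗ[ℤ] U) (v w : A) (y : Fin m → A) :
    contr m F v w y = F w (Fin.cons v y) := rfl

end Flip

section Exact

variable {U : Type*} [AddCommGroup U] [Module ℚ U]

/-- Exactness of the dual complex in the polynomial degrees at least two. -/
theorem exact_poly {d m : ℕ} (L : M A (d + 2) (A →ₗ[ℤ] A [⋀^Fin m]→ₗ[ℤ] U))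
    (h1 : ∀ v, L (fun _ => v) v = 0)
    (h2 : ∀ (v w : A) (z : Fin m → A) (i : Fin m), z i = v → L (fun _ => v) w z = 0) :
    ∃ Φ : M A (d + 1) (A →ₗ[ℤ] A [⋀^Fin (m + 1)]→ₗ[ℤ] U),
      (∀ v, Φ (fun _ => v) v = 0) ∧
      ∀ (v w : A) (y : Fin m → A), Φ (fun _ => v) w (Fin.cons v y) = L (fun _ => v) w y := by
  obtain ⟨Φ0, hΦ0⟩ := koszul (d := d + 1) ((toForm m).compMultilinearMap L) (by
    intro v z i hz
    ext w
    exact h2 v w z i hz)
  obtain ⟨Q, hQ⟩ := koszul (d := d + 1) (ev ((ofForm (m + 1)).compMultilinearMap Φ0)) (by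
    intro v z i hz
    rw [ev_diag]
    change Φ0 (fun _ => v) z v = 0
    have e := AlternatingMap.map_insertNth (Φ0 (fun _ => v)) i (z i) (Fin.removeNth i z)
    rw [Fin.insertNth_self_removeNth (α := fun _ => A) i z, hz] at e
    have e2 := hΦ0 v (Fin.removeNth i z)
    change Φ0 (fun _ => v) (Matrix.vecCons v (Fin.removeNth i z)) = _ at e2
    rw [e, e2, LinearMap.smul_apply]
    change (-1 : ℤ) ^ (i : ℕ) • (L (fun _ => v) v) (Fin.removeNth i z) = 0
    rw [h1]
    simp)
  let Q' : M A d (A →ₗ[ℤ] A [⋀^Fin (m + 2)]→ₗ[ℤ] U) := ((1 : ℚ) / (d + 1)) • der Q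
  have hQ' : ∀ v, Q' (fun _ => v) v = Q (fun _ => v) := by
    intro v
    change ((1 : ℚ) / (d + 1)) • (der Q (fun _ => v) v) = _
    rw [der_euler, ← Nat.cast_smul_eq_nsmul ℚ, smul_smul]
    push_cast
    rw [one_div_mul_cancel (by positivity), one_smul]
  refine ⟨(ofForm (m + 1)).compMultilinearMap Φ0 - ev ((contr (m + 1)).compMultilinearMap Q'),
    fun v => ?_, fun v w y => ?_⟩
  · ext y
    change Φ0 (fun _ => v) y v - Q' (fun _ => v) v (Fin.cons v y) = 0
    rw [hQ', hQ]
    exact sub_self _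
  · change Φ0 (fun _ => v) (Fin.cons v y) w - Q' (fun _ => v) w (Fin.cons v (Fin.cons v y)) = _
    rw [hΦ0, AlternatingMap.map_eq_zero_of_eq (Q' (fun _ => v) w)
      (Fin.cons v (Fin.cons v y) : Fin (m + 2) → A) (i := 0) (j := 1) (by simp) (by simp)]
    rw [sub_zero]
    rfl

end Exact

end Pool.Agent.Helper69.Gon
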