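import Pool.Agent.Helper69.Gon.Forms

/-!
Exactness of polylogarithmic complexes, dual form, from rigidity and spanning.
`C j` plays the role of the group of weight `j + 2`, `s j x` of the symbol of `x`,
`f x` of `x` and `g x` of `1 - x` in the multiplicative group `A`.
-/

open Function

namespace Pool.Agent.Helper69.Gon

universe u

/-- The data: symbols in the groups `C j` and the maps `f`, `g` to `A`. -/
structure Sys (A X : Type u) [AddCommGroup A] (C : ℕ → Type u) [∀ j, AddCommGroup (C j)]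
    (f g : X → A) (s : ∀ j, X → C j) : Prop where
  low2 : ∀ (T : Type u) [AddCommGroup T] [Module ℚ T] (β : A →ₗ[ℤ] A →ₗ[ℤ] T),
    (∀ v, β v v = 0) → ∃ lam : C 0 →+ T, ∀ x, lam (s 0 x) = β (g x) (f x)
  up2 : ∀ (T : Type u) [AddCommGroup T] [Module ℚ T] (lam : C 0 →+ T),
    ∃ β : A →ₗ[ℤ] A →ₗ[ℤ] T, (∀ v, β v v = 0) ∧ ∀ x, lam (s 0 x) = β (g x) (f x)
  low : ∀ (j : ℕ) (T : Type u) [AddCommGroup T] [Module ℚ T] (mu : C j →+ (A →ₗ[ℤ] T)),
    ∃ lam : C (j + 1) →+ T, ∀ x, lam (s (j + 1) x) = mu (s j x) (f x)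
  up : ∀ (j : ℕ) (T : Type u) [AddCommGroup T] [Module ℚ T] (lam : C (j + 1) →+ T),
    ∃ mu : C j →+ (A →ₗ[ℤ] T), ∀ x, lam (s (j + 1) x) = mu (s j x) (f x)
  span : ∀ (N : ℕ) (Ψ : M A (N + 1) (A →ₗ[ℤ] ℚ)), (∀ v, Ψ (fun _ => v) v = 0) →
    (∀ x, Ψ (fun _ => f x) (g x) = 0) → ∀ v w, Ψ (fun _ => v) w = 0

variable {A X : Type u} [AddCommGroup A] {C : ℕ → Type u} [∀ j, AddCommGroup (C j)]
    {f g : X → A} {s : ∀ j, X → C j}

/-- A multilinear map in one variable is linear. -/
def lin1 {T : Type*} [AddCommGroup T] (L : M A 1 T) : A →ₗ[ℤ] T :=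
  (MultilinearMap.ofSubsingleton ℤ A T (0 : Fin 1)).symm L

theorem lin1_apply {T : Type*} [AddCommGroup T] (L : M A 1 T) (v : A) :
    lin1 L v = L (fun _ => v) := rfl

theorem Sys.spanU (h : Sys A X C f g s) {U : Type*} [AddCommGroup U] [Module ℚ U]
    (N : ℕ) (Ψ : M A (N + 1) (A →ₗ[ℤ] U)) (h1 : ∀ v, Ψ (fun _ => v) v = 0)
    (h2 : ∀ x, Ψ (fun _ => f x) (g x) = 0) (v w : A) : Ψ (fun _ => v) w = 0 := by
  by_contra hu
  obtain ⟨φ, hφ⟩ : ∃ φ : U →ₗ[ℚ] ℚ, φ (Ψ (fun _ => v) w) ≠ 0 := by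
    by_contra hcon
    push Not at hcon
    exact hu ((Module.forall_dual_apply_eq_zero_iff ℚ _).1 hcon)
  let ψ : (A →ₗ[ℤ] U) →ₗ[ℤ] (A →ₗ[ℤ] ℚ) :=
    { toFun := fun F => (φ.toAddMonoidHom.toIntLinearMap).comp F
      map_add' := by
        intro F G
        ext a
        simp
      map_smul' := by
        intro c F
        ext a
        simp }
  exact hφ (h.span N (ψ.compMultilinearMap Ψ) (by
    intro v
    change φ (Ψ (fun _ => v) v) = 0
    rw [h1, map_zero]) (by
    intro x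
    change φ (Ψ (fun _ => f x) (g x)) = 0
    rw [h2, map_zero]) v w)

/-- Polynomial data define functionals on the groups `C j`. -/
theorem Sys.ofPoly (h : Sys A X C f g s) (j : ℕ) : ∀ (T : Type u) [AddCommGroup T] [Module ℚ T]
    (L : M A (j + 1) (A →ₗ[ℤ] T)), (∀ v, L (fun _ => v) v = 0) →
    ∃ lam : C j →+ T, ∀ x, lam (s j x) = L (fun _ => f x) (g x) := by
  induction j with
  | zero =>
    intro T _ _ L hL
    exact h.low2 T (lin1 L).flip (fun v => hL v)
  | succ j ih =>
    intro T _ _ L hL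
    let c : T →ₗ[ℤ] (A [⋀^Fin 0]→ₗ[ℤ] T) :=
      (AlternatingMap.constLinearEquivOfIsEmpty (R' := ℤ)).toLinearMap
    let c' : (A →ₗ[ℤ] T) →ₗ[ℤ] (A →ₗ[ℤ] A [⋀^Fin 0]→ₗ[ℤ] T) :=
      { toFun := fun F => c.comp F
        map_add' := by
          intro F G
          ext a y
          simp
        map_smul' := by
          intro r F
          ext a y
          simp }
    have hc : ∀ (F : A →ₗ[ℤ] T) (a : A) (y : Fin 0 → A), c' F a y = F a := fun F a y => rfl
    obtain ⟨Φ, hΦ1, hΦ2⟩ := exact_poly (m := 0) (c'.compMultilinearMap L) (by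
      intro v
      ext y
      change c' (L fun _ => v) v y = 0
      rw [hc, hL]) (by
      intro v w z i
      exact i.elim0)
    obtain ⟨mu, hmu⟩ := ih (A [⋀^Fin 1]→ₗ[ℤ] T) Φ hΦ1
    let e : (A [⋀^Fin 1]→ₗ[ℤ] T) →+ (A →ₗ[ℤ] T) :=
      { toFun := fun F => lin1 F.toMultilinearMap
        map_zero' := by
          ext a
          rfl
        map_add' := by
          intro F G
          ext a
          rfl }
    obtain ⟨lam, hlam⟩ := h.low j T (e.comp mu)
    refine ⟨lam, fun x => ?_⟩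
    rw [hlam]
    change (mu (s j x)) (fun _ => f x) = _
    rw [hmu]
    have := hΦ2 (f x) (g x) Fin.elim0
    change _ = c' (L fun _ => f x) (g x) Fin.elim0 at this
    rw [hc] at this
    rw [← this]
    congr 1
    ext i
    rw [Subsingleton.elim i 0]
    rfl

/-- Every functional on `C j` comes from polynomial data. -/
theorem Sys.toPoly (h : Sys A X C f g s) (j : ℕ) : ∀ (T : Type u) [AddCommGroup T] [Module ℚ T]
    (lam : C j →+ T), ∃ L : M A (j + 1) (A →ₗ[ℤ] T), (∀ v, L (fun _ => v) v = 0) ∧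
    ∀ x, lam (s j x) = L (fun _ => f x) (g x) := by
  induction j with
  | zero =>
    intro T _ _ lam
    obtain ⟨β, hβ, hx⟩ := h.up2 T lam
    refine ⟨ev (MultilinearMap.constOfIsEmpty ℤ _ β.flip), fun v => ?_, fun x => ?_⟩
    · exact hβ v
    · exact hx x
  | succ j ih =>
    intro T _ _ lam
    obtain ⟨mu, hmu⟩ := h.up j T lam
    obtain ⟨L', hL', hx⟩ := ih (A →ₗ[ℤ] T) mu
    let fl : (A →ₗ[ℤ] A →ₗ[ℤ] T) →ₗ[ℤ] (A →ₗ[ℤ] A →ₗ[ℤ] T) := LinearMap.lflip.toLinearMap
    refine ⟨ev (fl.compMultilinearMap L'), fun v => ?_, fun x => ?_⟩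
    · change L' (fun _ => v) v v = 0
      rw [hL']
      rfl
    · rw [hmu, hx]
      rfl

/-- Exactness at the terms of weight at least three. -/
theorem Sys.exact_mid (h : Sys A X C f g s) (j m : ℕ) (U : Type u) [AddCommGroup U] [Module ℚ U]
    (lam : C (j + 1) →+ (A [⋀^Fin m]→ₗ[ℤ] U))
    (hl : ∀ (x : X) (z : Fin m → A) (i : Fin m), z i = f x → lam (s (j + 1) x) z = 0) :
    ∃ mu : C j →+ (A [⋀^Fin (m + 1)]→ₗ[ℤ] U), ∀ (x : X) (y : Fin m → A),
      mu (s j x) (Fin.cons (f x) y) = lam (s (j + 1) x) y := by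
  obtain ⟨L, hL, hx⟩ := h.toPoly (j + 1) (A [⋀^Fin m]→ₗ[ℤ] U) lam
  obtain ⟨Φ, hΦ1, hΦ2⟩ := exact_poly L hL (by
    intro v w z i hz
    let sl : (A →ₗ[ℤ] A [⋀^Fin m]→ₗ[ℤ] U) →ₗ[ℤ] (A →ₗ[ℤ] A →ₗ[ℤ] U) :=
      { toFun := fun F => ((slot z i).comp F).flip
        map_add' := by
          intro F G
          ext a b
          rfl
        map_smul' := by
          intro c F
          ext a b
          rfl }
    have hsl : ∀ F a b, sl F a b = F b (update z i a) := fun F a b => rfl
    have key := h.spanU (j + 2) (ev (sl.compMultilinearMap L)) (by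
      intro v
      change L (fun _ => v) v (update z i v) = 0
      rw [hL]
      rfl) (by
      intro x
      change L (fun _ => f x) (g x) (update z i (f x)) = 0
      rw [← hx]
      exact hl x _ i (by simp)) v w
    change L (fun _ => v) w (update z i v) = 0 at key
    subst hz
    rwa [Function.update_eq_self] at key)
  obtain ⟨mu, hmu⟩ := h.ofPoly j (A [⋀^Fin (m + 1)]→ₗ[ℤ] U) Φ hΦ1
  refine ⟨mu, fun x y => ?_⟩
  rw [hmu, hΦ2, hx]

/-- Exactness at the term of weight two. -/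
theorem Sys.exact_two (h : Sys A X C f g s) (m : ℕ) (U : Type u) [AddCommGroup U] [Module ℚ U]
    (lam : C 0 →+ (A [⋀^Fin m]→ₗ[ℤ] U))
    (hl : ∀ (x : X) (z : Fin m → A) (i : Fin m), z i = f x → lam (s 0 x) z = 0) :
    ∃ mu : A [⋀^Fin (m + 2)]→ₗ[ℤ] U, ∀ (x : X) (y : Fin m → A),
      mu (Fin.cons (g x) (Fin.cons (f x) y)) = lam (s 0 x) y := by
  obtain ⟨L, hL, hx⟩ := h.toPoly 0 (A [⋀^Fin m]→ₗ[ℤ] U) lam
  have hz : ∀ (v w : A) (z : Fin m → A) (i : Fin m), z i = v → L (fun _ => v) w z = 0 := by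
    intro v w z i hz
    let sl : (A →ₗ[ℤ] A [⋀^Fin m]→ₗ[ℤ] U) →ₗ[ℤ] (A →ₗ[ℤ] A →ₗ[ℤ] U) :=
      { toFun := fun F => ((slot z i).comp F).flip
        map_add' := by
          intro F G
          ext a b
          rfl
        map_smul' := by
          intro c F
          ext a b
          rfl }
    have key := h.spanU 1 (ev (sl.compMultilinearMap L)) (by
      intro v
      change L (fun _ => v) v (update z i v) = 0
      rw [hL]
      rfl) (by
      intro x
      change L (fun _ => f x) (g x) (update z i (f x)) = 0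
      rw [← hx]
      exact hl x _ i (by simp)) v w
    change L (fun _ => v) w (update z i v) = 0 at key
    subst hz
    rwa [Function.update_eq_self] at key
  -- `β w v = L v w`
  have hskew : ∀ v w, L (fun _ => v) w + L (fun _ => w) v = 0 := by
    intro v w
    have h1 := hL (v + w)
    have h2 : L (fun _ => v + w) = L (fun _ => v) + L (fun _ => w) := (lin1 L).map_add v w
    rw [h2, LinearMap.add_apply, map_add, map_add, hL, hL] at h1
    simpa using h1
  let β : A →ₗ[ℤ] A →ₗ[ℤ] A [⋀^Fin m]→ₗ[ℤ] U := (lin1 L).flip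
  have hβ : ∀ w v, β w v = L (fun _ => v) w := fun w v => rfl
  let F1 : A →ₗ[ℤ] A [⋀^Fin (m + 1)]→ₗ[ℤ] U :=
    ((1 : ℚ) / (m + 1)) • (AlternatingMap.alternatizeUncurryFinLM ∘ₗ β)
  have hF1 : ∀ (w v : A) (y : Fin m → A), F1 w (Fin.cons v y) = β w v y := by
    intro w v y
    exact altOf (β w) (by
      intro v z i hzi
      rw [hβ]
      exact hz v w z i hzi) v y
  have hF1z : ∀ (w : A) (z : Fin (m + 1) → A) (i : Fin (m + 1)), z i = w → F1 w z = 0 := by
    intro w z i hzi
    have e : z = Fin.cons (z 0) (Fin.tail z) := (Fin.cons_self_tail z).symm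
    rw [e, hF1, hβ]
    revert hzi
    refine Fin.cases ?_ (fun i' => ?_) i
    · intro hzi
      rw [hzi, hL]
      rfl
    · intro hzi
      have h1 := hskew (z 0) w
      have h2 : L (fun _ => z 0) w (Fin.tail z) + L (fun _ => w) (z 0) (Fin.tail z) = 0 := by
        rw [← AlternatingMap.add_apply, h1]
        rfl
      rw [hz w (z 0) (Fin.tail z) i' hzi, add_zero] at h2
      exact h2
  refine ⟨((1 : ℚ) / ((m + 1 : ℕ) + 1)) • AlternatingMap.alternatizeUncurryFin F1, fun x y => ?_⟩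
  have h3 := altOf F1 hF1z (g x) (Fin.cons (f x) y)
  rw [h3, hF1, hβ, hx]

/-- Surjectivity onto the top term. -/
theorem Sys.exact_top (h : Sys A X C f g s) (m : ℕ) (U : Type u) [AddCommGroup U] [Module ℚ U]
    (mu : A [⋀^Fin (m + 2)]→ₗ[ℤ] U)
    (hmu : ∀ (x : X) (y : Fin m → A), mu (Fin.cons (g x) (Fin.cons (f x) y)) = 0) : mu = 0 := by
  have key : ∀ (w v : A) (y : Fin m → A), mu (Fin.cons w (Fin.cons v y)) = 0 := by
    intro w v y
    let L : A →ₗ[ℤ] A →ₗ[ℤ] U :=
      LinearMap.mk₂ ℤ (fun v w => mu (Fin.cons w (Fin.cons v y)))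
        (by
          intro a b c
          have := (mu.curryLeft c).map_update_add (Fin.cons 0 y) 0 a b
          simp only [Fin.update_cons_zero] at this
          exact this)
        (by
          intro r a c
          have := (mu.curryLeft c).map_update_smul (Fin.cons 0 y) 0 r a
          simp only [Fin.update_cons_zero] at this
          exact this)
        (by
          intro a b c
          have := mu.map_update_add (Fin.cons 0 (Fin.cons a y)) 0 b c
          simpa using this)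
        (by
          intro r a b
          have := mu.map_update_smul (Fin.cons 0 (Fin.cons a y)) 0 r b
          simpa using this)
    have := h.spanU 0 (ev (MultilinearMap.constOfIsEmpty ℤ _ L)) (by
      intro v
      change mu (Fin.cons v (Fin.cons v y)) = 0
      exact mu.map_eq_zero_of_eq (Fin.cons v (Fin.cons v y) : Fin (m + 2) → A)
        (i := 0) (j := 1) (by simp) (by simp)) (fun x => hmu x y) v w
    exact this
  ext z
  have e : z = Fin.cons (z 0) (Fin.cons (z 1) (Fin.tail (Fin.tail z))) := by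
    rw [← Fin.cons_self_tail z]
    congr 1
    rw [← Fin.cons_self_tail (Fin.tail z)]
    rfl
  rw [e, key]
  rfl

end Pool.Agent.Helper69.Gon
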